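import Pool.Agent.R85.KF.RU

/-!
# Copies of five-vertex 3-graphs in `K_4^3`-free 3-graphs: maxima and stability

For a 3-graph `F` on five vertices let `hom(F, H)` be the number of homomorphisms from `F` to `H`.
We show that for four 3-graphs `F` Turán's construction for `K_4^3` asymptotically maximises the
number of copies of `F` among the `K_4^3`-free 3-graphs, and that all nearly extremal 3-graphs are
close to it: for every `K_4^3`-free 3-graph `H` on `n` vertices there is a division `g` of the
vertices into three parts with `n² |H ∆ turan g| ≤ 430080 (col(F) n⁵ - 243 hom(F, H))`, where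
`col(F)` is the number of colourings of the five vertices with three colours that map every edge of
`F` to a triple of Turán's pattern. In particular `hom(F, H) ≤ col(F) (n/3)⁵`. The four 3-graphs are:
two copies of `K_4^-` with the same missing triple (six edges, on five vertices), this 3-graph
without one edge, all triples formed by a vertex and the edges of a 4-cycle, and all triples formed
by a vertex and the edges of a path with three edges.

Outline: sum of squares certificates for six-vertex structures, found by a semidefinite programming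
solver and made exact (two for each of the four 3-graphs: for the number of copies plus or minus a
multiple of the number of edges, the second one with a slack for all six-vertex structures that do
not occur in Turán's construction); the leaf inequalities are checked by the kernel. So nearly extremal 3-graphs have nearly as many edges as Turán's construction and few
six-vertex structures of other types, and then a division of the vertices is found from five of
them (as in the starting files on stability).
-/

set_option autoImplicit false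
set_option maxRecDepth 100000
open Finset

namespace Pool.Agent.Results.MP_f1799f_co.GeneralizedTuran

/-- The 3-graph `H` has no four vertices spanning all four triples. -/
def K43Free {n : ℕ} (H : Finset (Finset (Fin n))) : Prop :=
  ∀ S : Finset (Fin n), S.card = 4 → ∃ s ⊆ S, s.card = 3 ∧ s ∉ H

/-- The number of homomorphisms from the 3-graph `F` with the vertices `0, ..., 4` to `H`: maps of
the vertices such that the image of every edge of `F` is an edge of `H`. -/
def homs {n : ℕ} (F : Finset (Finset (Fin 5))) (H : Finset (Finset (Fin n))) : ℕ :=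
  (univ.filter fun x : Fin 5 → Fin n => ∀ e ∈ F, e.image x ∈ H).card

/-- The triple `e` of the vertices coloured by `c` has the pattern of Turán's construction: its
vertices have three different colours, or two have the colour `i` and one has the colour `i + 1`
(mod 3). -/
def TuranTriple {k : ℕ} (c : Fin k → Fin 3) (e : Finset (Fin k)) : Prop :=
  (∀ i : Fin 3, (e.filter fun v => c v = i).card = 1) ∨
    ∃ i : Fin 3, (e.filter fun v => c v = i).card = 2 ∧ (e.filter fun v => c v = i + 1).card = 1

instance {k : ℕ} (c : Fin k → Fin 3) : DecidablePred (TuranTriple c) := fun e => by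
  unfold TuranTriple; infer_instance

/-- Turán's construction for the division `g` of the vertices into three parts. -/
def turan {n : ℕ} (g : Fin n → Fin 3) : Finset (Finset (Fin n)) :=
  ((univ : Finset (Fin n)).powersetCard 3).filter fun e => TuranTriple g e

/-- The number of colourings of the five vertices with three colours such that every edge of `F` has
the pattern of Turán's construction. -/
def colourings (F : Finset (Finset (Fin 5))) : ℕ :=
  (univ.filter fun c : Fin 5 → Fin 3 => ∀ e ∈ F, TuranTriple c e).card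

/-- The four 3-graphs: two copies of `K_4^-` with the same missing triple `012`; this 3-graph without
one edge; the triples formed by the vertex `0` and an edge of the 4-cycle `1 3 2 4`; the triples
formed by the vertex `0` and an edge of the path `3 2 1 4`. -/
def family : List (Finset (Finset (Fin 5))) :=
  [{{0,1,3}, {0,2,3}, {1,2,3}, {0,1,4}, {0,2,4}, {1,2,4}},
    {{0,1,3}, {0,2,3}, {1,2,3}, {0,1,4}, {0,2,4}},
    {{0,1,3}, {0,2,3}, {0,1,4}, {0,2,4}},
    {{0,2,3}, {0,1,2}, {0,1,4}}]

open Pool.Agent.R85.GT (NF code ends ends_NF fb fb_Bt homs_eq)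
open Pool.Agent.H122R2.N6 Pool.Agent.R85.KF

theorem turan_eq {n : ℕ} (g : Fin n → Fin 3) :
    turan g = Pool.Agent.TH773.Turan34.turan g := by
  unfold turan Pool.Agent.TH773.Turan34.turan
  refine filter_congr fun e he => ?_
  have h3 := (mem_powersetCard.mp he).2
  unfold TuranTriple
  refine or_congr ?_ Iff.rfl
  have hs : (e.filter fun v => g v = 0).card + (e.filter fun v => g v = 1).card +
      (e.filter fun v => g v = 2).card = 3 := by
    refine Eq.trans ?_ h3
    rw [card_filter, card_filter, card_filter, ← sum_add_distrib, ← sum_add_distrib,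
      card_eq_sum_ones]
    refine sum_congr rfl fun i _ => ?_
    have : ∀ p : Fin 3, (((if p = 0 then 1 else 0) + (if p = 1 then 1 else 0) +
      (if p = 2 then 1 else 0)) : ℕ) = 1 := by decide
    exact this (g i)
  constructor
  · intro h p
    have h1 : 0 < (e.filter fun v => g v = p).card := by rw [h p]; norm_num
    obtain ⟨i, hi⟩ := card_pos.mp h1
    exact ⟨i, (mem_filter.mp hi).1, (mem_filter.mp hi).2⟩
  · intro h
    have h1 : ∀ p : Fin 3, 0 < (e.filter fun v => g v = p).card := by
      intro p
      obtain ⟨i, hi, hp⟩ := h p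
      exact card_pos.mpr ⟨i, mem_filter.mpr ⟨hi, hp⟩⟩
    have a0 := h1 0
    have a1 := h1 1
    have a2 := h1 2
    intro p
    have hp : p = 0 ∨ p = 1 ∨ p = 2 := by
      revert p; decide
    rcases hp with rfl | rfl | rfl <;> omega

theorem fin_case {n r : ℕ} {F : Finset (Finset (Fin 5))} (h3 : ∀ e ∈ F, e.card = 3)
    {H : Finset (Finset (Fin n))} (hH : ∀ e ∈ H, e.card = 3)
    (h : ends 7 (fb F {0,1,2}) (fb F {0,1,3}) (fb F {0,2,3}) (fb F {1,2,3}) (fb F {0,1,4}) (fb F {0,2,4}) (fb F {1,2,4}) (fb F {0,3,4}) (fb F {1,3,4}) (fb F {2,3,4}) = r)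
    {col K : ℕ} (hc : NF tp r = col) (hK4 : K ≤ 4)
    (h1 : 243 * NF (tri H) r ≤ col * (Fintype.card (Fin n)) ^ 5)
    (h2 : ∃ g : Fin n → Fin 3, (Fintype.card (Fin n)) ^ 2 * Pool.Agent.TH773.ST.bad (tri H) g ≤
      645120 * K * (col * (Fintype.card (Fin n)) ^ 5 - 243 * NF (tri H) r)) :
    ∃ g : Fin n → Fin 3, n ^ 2 * (symmDiff H (turan g)).card + 104509440 * homs F H ≤
      430080 * colourings F * n ^ 5 := by
  have e1 : homs F H = NF (tri H) (code F) := homs_eq h3 H
  have e2 : colourings F = NF tp (code F) := colourings_eq h3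
  have n1 := ends_NF (tri_sy H) 7 (fb_Bt F {0,1,2}) (fb_Bt F {0,1,3}) (fb_Bt F {0,2,3}) (fb_Bt F {1,2,3}) (fb_Bt F {0,1,4}) (fb_Bt F {0,2,4}) (fb_Bt F {1,2,4}) (fb_Bt F {0,3,4}) (fb_Bt F {1,3,4}) (fb_Bt F {2,3,4})
  have n2 := ends_NF tp_sy 7 (fb_Bt F {0,1,2}) (fb_Bt F {0,1,3}) (fb_Bt F {0,2,3}) (fb_Bt F {1,2,3}) (fb_Bt F {0,1,4}) (fb_Bt F {0,2,4}) (fb_Bt F {1,2,4}) (fb_Bt F {0,3,4}) (fb_Bt F {1,3,4}) (fb_Bt F {2,3,4})
  rw [h] at n1 n2
  rw [Fintype.card_fin] at h1 h2
  have n1' : NF (tri H) r = homs F H := n1.trans e1.symm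
  have n2' : NF tp r = colourings F := n2.trans e2.symm
  rw [hc] at n2'
  rw [n1', n2'] at h1 h2
  obtain ⟨g, hg⟩ := h2
  refine ⟨g, ?_⟩
  have h4 := six_symm_le hH g
  rw [turan_eq]
  have h5 := Nat.mul_le_mul_left (n ^ 2) h4
  have h6 : n ^ 2 * (6 * (symmDiff H (Pool.Agent.TH773.Turan34.turan g)).card) =
      6 * (n ^ 2 * (symmDiff H (Pool.Agent.TH773.Turan34.turan g)).card) := by ring
  rw [h6] at h5
  have h7 : 645120 * K * (colourings F * n ^ 5 - 243 * homs F H) ≤
      645120 * 4 * (colourings F * n ^ 5 - 243 * homs F H) := by gcongr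
  have h8 : 430080 * colourings F * n ^ 5 = 430080 * (colourings F * n ^ 5) := by ring
  rw [h8]
  omega

theorem c725 : NF tp 725 = 12 := by decide +kernel
theorem c355 : NF tp 355 = 15 := by decide +kernel
theorem c553 : NF tp 553 = 39 := by decide +kernel
theorem c76 : NF tp 76 = 48 := by decide +kernel

theorem main {n : ℕ} {F : Finset (Finset (Fin 5))} (hF : F ∈ family)
    {H : Finset (Finset (Fin n))} (hH : ∀ e ∈ H, e.card = 3) (hK : K43Free H) :
    ∃ g : Fin n → Fin 3, n ^ 2 * (symmDiff H (turan g)).card + 104509440 * homs F H ≤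
      430080 * colourings F * n ^ 5 := by
  have hE := tri_sy H
  have hN : NoK4 (tri H) := tri_noK4 hH hK
  rcases Nat.eq_zero_or_pos n with hn | hn
  · subst hn
    refine ⟨fun _ => 0, ?_⟩
    have : homs F H = 0 := by
      unfold homs
      rw [card_eq_zero, filter_eq_empty_iff]
      intro x
      exact (x 0).elim0
    rw [this]
    simp
  have hn' : 0 < Fintype.card (Fin n) := by rw [Fintype.card_fin]; exact hn
  unfold family at hF
  simp only [List.mem_cons, List.not_mem_nil, or_false] at hF
  rcases hF with rfl | rfl | rfl | rfl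
  · exact fin_case (by decide) hH (by decide +kernel) c725 (by norm_num) (q725 hE hN hn') (stab725 hE hN hn')
  · exact fin_case (by decide) hH (by decide +kernel) c355 (by norm_num) (q355 hE hN hn') (stab355 hE hN hn')
  · exact fin_case (by decide) hH (by decide +kernel) c553 (by norm_num) (q553 hE hN hn') (stab553 hE hN hn')
  · exact fin_case (by decide) hH (by decide +kernel) c76 (by norm_num) (q76 hE hN hn') (stab76 hE hN hn')

theorem cols : family.map colourings = [12, 15, 39, 48] := by
  have key : ∀ {F : Finset (Finset (Fin 5))} {r col : ℕ}, (∀ e ∈ F, e.card = 3) →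
      ends 7 (fb F {0,1,2}) (fb F {0,1,3}) (fb F {0,2,3}) (fb F {1,2,3}) (fb F {0,1,4}) (fb F {0,2,4}) (fb F {1,2,4}) (fb F {0,3,4}) (fb F {1,3,4}) (fb F {2,3,4}) = r →
      NF tp r = col → colourings F = col := by
    intro F r col h3 h hc
    have e2 : colourings F = NF tp (code F) := colourings_eq h3
    have n2 := ends_NF tp_sy 7 (fb_Bt F {0,1,2}) (fb_Bt F {0,1,3}) (fb_Bt F {0,2,3}) (fb_Bt F {1,2,3}) (fb_Bt F {0,1,4}) (fb_Bt F {0,2,4}) (fb_Bt F {1,2,4}) (fb_Bt F {0,3,4}) (fb_Bt F {1,3,4}) (fb_Bt F {2,3,4})
    rw [h] at n2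
    rw [← hc]
    exact (n2.trans e2.symm).symm
  unfold family
  simp only [List.map_cons, List.map_nil]
  rw [key (F := {{0,1,3}, {0,2,3}, {1,2,3}, {0,1,4}, {0,2,4}, {1,2,4}}) (by decide) (by decide +kernel) c725,
    key (F := {{0,1,3}, {0,2,3}, {1,2,3}, {0,1,4}, {0,2,4}}) (by decide) (by decide +kernel) c355,
    key (F := {{0,1,3}, {0,2,3}, {0,1,4}, {0,2,4}}) (by decide) (by decide +kernel) c553,
    key (F := {{0,2,3}, {0,1,2}, {0,1,4}}) (by decide) (by decide +kernel) c76]

/-- For each of the four 3-graphs `F` in the list `family` and every `K_4^3`-free 3-graph `H` on `n`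
vertices there is a division `g` of the vertices into three parts with
`n² |H ∆ turan g| ≤ 430080 (col(F) n⁵ - 243 hom(F, H))`; the numbers `col(F)` are 12, 15, 39, 48. For
every `m` there is a `K_4^3`-free 3-graph `H` on `3m` vertices with
`hom(F, H) ≥ col(F) m⁵ - 810 m⁴` for all 3-graphs `F` on five vertices. -/
theorem result :
    (∀ F ∈ family, ∀ (n : ℕ) (H : Finset (Finset (Fin n))), (∀ e ∈ H, e.card = 3) → K43Free H →
      243 * homs F H ≤ colourings F * n ^ 5 ∧
      ∃ g : Fin n → Fin 3, n ^ 2 * (symmDiff H (turan g)).card + 104509440 * homs F H ≤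
        430080 * colourings F * n ^ 5) ∧
    family.map colourings = [12, 15, 39, 48] ∧
    (∀ m : ℕ, ∃ H : Finset (Finset (Fin (3 * m))), (∀ e ∈ H, e.card = 3) ∧ K43Free H ∧
      ∀ F : Finset (Finset (Fin 5)), (∀ e ∈ F, e.card = 3) →
        colourings F * m ^ 5 ≤ homs F H + 810 * m ^ 4) := by
  refine ⟨fun F hF n H hH hK => ⟨?_, main hF hH hK⟩, cols,
    fun m => ⟨Pool.Agent.H122R2.K5.tur (3 * m), Pool.Agent.H122R2.K5.tur_card _,
    Pool.Agent.H122R2.K5.tur_free _, fun _ h3 => lower h3 m⟩⟩
  obtain ⟨g, hg⟩ := main hF hH hK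
  have h8 : 430080 * colourings F * n ^ 5 = 430080 * (colourings F * n ^ 5) := by ring
  rw [h8] at hg
  omega

end Pool.Agent.Results.MP_f1799f_co.GeneralizedTuran
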