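import Pool.Agent.R810.LJ.Asym
import Pool.Agent.R810.LJ.Sharp

/-!
# `K_4^3`-free 3-graphs whose links are joins

The link of a vertex `v` of a 3-graph `H` is the graph of the pairs which form an edge with `v`. In
Turán's construction the link of a vertex is the join of two graphs: for a vertex of the class `V_i`
every vertex of `V_{i+1}` is joined in the link to every other vertex outside `V_{i+1}`. Conversely,
it is proved here that a `K_4^3`-free 3-graph in which every link is a join of two graphs with at
least two vertices each is contained in Turán's construction. So the exact form of Turán's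
conjecture holds for these 3-graphs, for all numbers of vertices, and Turán's construction is the
only extremal one (among the many `K_4^3`-free 3-graphs with as many edges).

The conjectured density `5/9` follows for all `K_4^3`-free 3-graphs in which almost all links are
nearly joins: for all but `ε n` vertices `v` the other vertices can be divided into two classes with
at least `δ n` vertices such that at most `ε n²` pairs with one vertex in each class are missing in
the link of `v`. In other words: for a counterexample to Turán's conjecture the complements of a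
positive proportion of the links have no sparse cuts.

Proof. Let `F_v(y)` be the class at `v` which does not contain `y`. Then `F_v(y)` and `F_y(v)` are
comparable: else there are `c`, `d` such that all four triples in `{v, y, c, d}` are edges. From this
the three classes are found by starting with a smallest set `F_v(y)`. The second part follows from
the first one for the 3-graphs induced by random sets of vertices of constant size.
-/

set_option autoImplicit false
open Finset

namespace Pool.Agent.Results.MP_f1799f_co.JoinLinks

variable {n : ℕ}

/-- The 3-graph `H` has no four vertices spanning all four triples. -/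
def K43Free (H : Finset (Finset (Fin n))) : Prop :=
  ∀ S : Finset (Fin n), S.card = 4 → ∃ e ⊆ S, e.card = 3 ∧ e ∉ H

/-- The vertices other than `v` are divided into the two classes `A` and `B`. -/
def Divides (v : Fin n) (A B : Finset (Fin n)) : Prop := Disjoint A B ∧ A ∪ B = univ.erase v

/-- The pairs `(a, b)` with `a ∈ A` and `b ∈ B` which are not edges of the link of `v`. -/
def missing (H : Finset (Finset (Fin n))) (v : Fin n) (A B : Finset (Fin n)) :
    Finset (Fin n × Fin n) :=
  (A ×ˢ B).filter fun p => ({v, p.1, p.2} : Finset (Fin n)) ∉ H

/-- The link of `v` in `H` is a join of two graphs with at least two vertices each. -/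
def JoinLink (H : Finset (Finset (Fin n))) (v : Fin n) : Prop :=
  ∃ A B : Finset (Fin n), Divides v A B ∧ 2 ≤ A.card ∧ 2 ≤ B.card ∧ missing H v A B = ∅

/-- The link of `v` in `H` is, up to at most `ε n²` missing pairs, a join of two graphs with at
least `δ n` vertices each. -/
def NearJoinLink (H : Finset (Finset (Fin n))) (δ ε : ℝ) (v : Fin n) : Prop :=
  ∃ A B : Finset (Fin n), Divides v A B ∧ δ * n ≤ A.card ∧ δ * n ≤ B.card ∧
    ((missing H v A B).card : ℝ) ≤ ε * (n : ℝ) ^ 2

/-- Turán's construction for the classes of `g`: the triples which meet all three classes, and the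
triples with two vertices in a class and one vertex in the (cyclically) next class. -/
def turanGraph (g : Fin n → Fin 3) : Finset (Finset (Fin n)) :=
  univ.filter fun e => e.card = 3 ∧ ((∀ k, ∃ x ∈ e, g x = k) ∨
    ∃ k, (e.filter fun x => g x = k).card = 2 ∧ (e.filter fun x => g x = k + 1).card = 1)

/-- The number of edges of Turán's construction on `n` vertices with classes of `⌊n/3⌋`,
`⌊(n+1)/3⌋`, `⌊(n+2)/3⌋` vertices. -/
def turanNumber (n : ℕ) : ℕ :=
  n / 3 * ((n + 1) / 3) * ((n + 2) / 3) + (n / 3).choose 2 * ((n + 1) / 3) +
    ((n + 1) / 3).choose 2 * ((n + 2) / 3) + ((n + 2) / 3).choose 2 * (n / 3)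

open Pool.Agent.R810 in
theorem joinLink_iff (H : Finset (Finset (Fin n))) (v : Fin n) :
    JoinLink H v ↔ LJ.JoinLink H v := by
  unfold JoinLink LJ.JoinLink
  refine exists_congr fun A => exists_congr fun B => and_congr Iff.rfl (and_congr Iff.rfl
    (and_congr Iff.rfl ?_))
  unfold missing
  rw [filter_eq_empty_iff]
  constructor
  · intro h a ha b hb
    have := h (x := (a, b)) (mem_product.2 ⟨ha, hb⟩)
    rwa [not_not] at this
  · rintro h ⟨a, b⟩ hab
    rw [not_not]
    exact h a (mem_product.1 hab).1 b (mem_product.1 hab).2

open Pool.Agent.R810 in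
theorem nearJoinLink_iff (H : Finset (Finset (Fin n))) (δ ε : ℝ) (v : Fin n) :
    NearJoinLink H δ ε v ↔ LJ.NearJoinLink H δ ε v := by
  unfold NearJoinLink LJ.NearJoinLink missing
  refine exists_congr fun A => exists_congr fun B => and_congr Iff.rfl (and_congr Iff.rfl
    (and_congr Iff.rfl ?_))
  congr!

open Pool.Agent.R810 in
theorem turanGraph_eq (g : Fin n → Fin 3) : turanGraph g = LJ.turanGraph g := by
  unfold turanGraph LJ.turanGraph
  congr!

open Pool.Agent.R810 in
/-- **Turán's conjecture for 3-graphs whose links are joins.** For `n ≥ 6` the largest number of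
edges of a `K_4^3`-free 3-graph on `n` vertices in which all links are joins of graphs with at least
two vertices is the number of edges of Turán's construction; every such 3-graph is contained in
Turán's construction for some classes with at least two vertices, and it is equal to it if it has
this number of edges. For all `δ, η > 0` there are `ε > 0` and `n0` such that a `K_4^3`-free 3-graph
on `n ≥ n0` vertices in which all links but at most `ε n` are, up to `ε n²` pairs, joins of graphs
with at least `δ n` vertices has at most `(5/9 + η) C(n,3)` edges. -/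
theorem result :
    (∀ n : ℕ, 6 ≤ n → IsGreatest {m : ℕ | ∃ H : Finset (Finset (Fin n)),
      (∀ e ∈ H, e.card = 3) ∧ K43Free H ∧ (∀ v, JoinLink H v) ∧ H.card = m} (turanNumber n)) ∧
    (∀ n : ℕ, 0 < n → ∀ H : Finset (Finset (Fin n)), (∀ e ∈ H, e.card = 3) → K43Free H →
      (∀ v, JoinLink H v) → ∃ g : Fin n → Fin 3,
        (∀ i, 2 ≤ (univ.filter fun x => g x = i).card) ∧ H ⊆ turanGraph g ∧
        (H.card = turanNumber n → H = turanGraph g)) ∧
    (∀ δ η : ℝ, 0 < δ → 0 < η → ∃ ε : ℝ, 0 < ε ∧ ∃ n0 : ℕ, ∀ n, n0 ≤ n →
      ∀ H : Finset (Finset (Fin n)), (∀ e ∈ H, e.card = 3) → K43Free H →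
        ({v | ¬ NearJoinLink H δ ε v}.ncard : ℝ) ≤ ε * n →
        (H.card : ℝ) ≤ (5 / 9 + η) * (n.choose 3 : ℝ)) := by
  refine ⟨?_, ?_, ?_⟩
  · intro n hn
    constructor
    · obtain ⟨g, hg, hc⟩ := LJ.exists_balanced n hn
      have hg' : ∀ i, 2 ≤ (univ.filter fun x => g x = i).card := by
        intro i
        convert hg i
      refine ⟨turanGraph g, ?_, ?_, ?_, ?_⟩
      · rw [turanGraph_eq]
        exact fun e he => LJ.card_of_turan he
      · rw [turanGraph_eq]
        exact LJ.turan_free g
      · intro v
        rw [turanGraph_eq, joinLink_iff]
        exact LJ.turan_join g hg v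
      · rw [turanGraph_eq]
        exact hc
    · rintro m ⟨H, h3, hK, hJ, rfl⟩
      exact (LJ.main_structure (by omega) h3 hK fun v => (joinLink_iff H v).1 (hJ v)).2
  · intro n hn H h3 hK hJ
    obtain ⟨⟨g, hg, hH⟩, -⟩ := LJ.main_structure hn h3 hK fun v => (joinLink_iff H v).1 (hJ v)
    refine ⟨g, ?_, ?_, fun h => ?_⟩
    · intro i
      convert hg i
    · rw [turanGraph_eq]
      exact hH
    · rw [turanGraph_eq]
      refine eq_of_subset_of_card_le hH ?_
      rw [h]
      exact LJ.turan_card_le g
  · intro δ η hδ hη
    obtain ⟨ε, hε, n0, h⟩ := LJ.asymptotic hδ hη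
    refine ⟨ε, hε, n0, fun n hn H h3 hK hX => h n hn H h3 hK ?_⟩
    refine le_trans (le_of_eq ?_) hX
    congr 1
    rw [← Set.ncard_coe_finset]
    congr 1
    ext v
    simp only [coe_filter, mem_univ, true_and, Set.mem_ofPred_eq, nearJoinLink_iff]

end Pool.Agent.Results.MP_f1799f_co.JoinLinks
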