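import Pool.Agent.R170.FA.Pat3S

/-!
# Generalised Turán numbers of `K_4^3` with stability: nearly balanced parts of Turán's construction

Turán's construction for the `(3,4)`-problem: the vertices are divided into three parts `A`, `B`,
`C`, and the edges are the triples that meet all three parts and the triples with two vertices in
one part and one vertex in the next, in the cyclic order `A`, `B`, `C`, `A`. Let `T(a, b, c)` be the
construction with parts of sizes `a`, `b`, `c`. We determine asymptotically the maximum number of
copies of `T(a, b, c)` in a `K_4^3`-free 3-graph on `n` vertices for every `a ≥ b ≥ c` with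
`a ≤ b + 1`, `b ≤ c + 1` and `a + b + c ≥ 6`: there are at most `3 (n/3)^(a+b+c) / (a! b! c!)` triples
of disjoint sets `(A, B, C)` of these sizes such that all triples of the construction with these parts
are edges, the asymptotic number for Turán's construction on `n` vertices with equal parts. (In a
`K_4^3`-free 3-graph such a copy is induced.) Moreover the problem is stable: a `K_4^3`-free 3-graph
with `(1 - δ) 3 (n/3)^(a+b+c) / (a! b! c!)` copies differs from Turán's construction for some division
of the vertices in at most `430080000 δ n³` triples.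

Outline: the cases `(2, 2, 2)` (the starting result `FourteenEdgeSextuples`) and `(3, 2, 1)` are
six-vertex sum of squares certificates with stability. A vertex can join at most one of the three
parts of a copy, by the triples it spans with one vertex of each of two parts; so at most `(n/3)^3`
triples of vertices extend a copy of `T(a, b, c)` to a copy of `T(a+1, b+1, c+1)`, and by the rotation
symmetry of the copies of `T(m, m, m)` on average at most `n/3` vertices extend the first part, at most
`(n/3)^2` pairs the first two parts. So the relative deficits of the numbers of copies are monotone.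
-/

set_option autoImplicit false
open Finset
open scoped Classical Nat

namespace Pool.Agent.Results.MP_f1799f_co.NearlyBalancedPatterns

/-- The 3-graph `H` has no four vertices spanning all four triples. -/
def K43Free {n : ℕ} (H : Finset (Finset (Fin n))) : Prop :=
  ∀ S : Finset (Fin n), S.card = 4 → ∃ s ⊆ S, s.card = 3 ∧ s ∉ H

/-- The triples `t` of Turán's construction with the parts `A`, `B`, `C`: those with one vertex in
each part, and those with two vertices in one part and one vertex in the next, in the cyclic order
`A`, `B`, `C`, `A`. -/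
def Edge {n : ℕ} (A B C t : Finset (Fin n)) : Prop :=
  ((t ∩ A).card = 1 ∧ (t ∩ B).card = 1 ∧ (t ∩ C).card = 1) ∨
    ((t ∩ A).card = 2 ∧ (t ∩ B).card = 1) ∨ ((t ∩ B).card = 2 ∧ (t ∩ C).card = 1) ∨
    ((t ∩ C).card = 2 ∧ (t ∩ A).card = 1)

/-- The sets `A`, `B`, `C` are pairwise disjoint, and the triples of Turán's construction with these
parts belong to `H`. -/
def Copy {n : ℕ} (H : Finset (Finset (Fin n))) (A B C : Finset (Fin n)) : Prop :=
  Disjoint A B ∧ Disjoint B C ∧ Disjoint C A ∧
    ∀ t ⊆ A ∪ B ∪ C, t.card = 3 → Edge A B C t → t ∈ H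

/-- The number of copies of Turán's construction with parts of sizes `a`, `b`, `c` in `H`. -/
noncomputable def copies {n : ℕ} (a b c : ℕ) (H : Finset (Finset (Fin n))) : ℕ :=
  ((univ : Finset (Finset (Fin n) × Finset (Fin n) × Finset (Fin n))).filter fun p =>
    p.1.card = a ∧ p.2.1.card = b ∧ p.2.2.card = c ∧ Copy H p.1 p.2.1 p.2.2).card

/-- The set of vertices in a part of the division `g`. -/
def part {n : ℕ} (g : Fin n → Fin 3) (p : Fin 3) : Finset (Fin n) := univ.filter fun i => g i = p

/-- Turán's construction for the division `g` of the vertices into three parts. -/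
noncomputable def turan {n : ℕ} (g : Fin n → Fin 3) : Finset (Finset (Fin n)) :=
  ((univ : Finset (Fin n)).powersetCard 3).filter fun t => Edge (part g 0) (part g 1) (part g 2) t

open Pool.Agent.R170.FA

theorem copies_eq {n : ℕ} {a b c : ℕ} (ha : 1 ≤ a) (hb : 1 ≤ b) (hc : 1 ≤ c)
    {H : Finset (Finset (Fin n))} (hK : K43Free H) :
    copies a b c H = (P3.prs3 a b c H).card := congrArg card (P3.cps_eq hK ha hb hc)

theorem turan_eq {n : ℕ} (g : Fin n → Fin 3) : turan g = P3.tu g := rfl

theorem copies_ge {n : ℕ} (a b c : ℕ) (H : Finset (Finset (Fin n))) :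
    (P3.prs3 a b c H).card ≤ copies a b c H := by
  refine card_le_card fun p hp => ?_
  obtain ⟨h1, h2, h3, h4⟩ := P3.mem_prs3.mp hp
  exact mem_filter.mpr ⟨mem_univ _, h1, h2, h3, h4.1, h4.2.1, h4.2.2.1, fun t ht hc he =>
    (h4.2.2.2 t ht hc).mpr he⟩

/-- For all sizes `a ≥ b ≥ c` with `a ≤ b + 1`, `b ≤ c + 1`, `a + b + c ≥ 6` and every `K_4^3`-free
3-graph `H` on `n` vertices: if `N` is the number of copies of Turán's construction with parts of these
sizes, then for some division `g` of the vertices `n ^ (a+b+c-3) |H ∆ turan g| + 430080000 *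
3 ^ (a+b+c-1) a! b! c! N ≤ 430080000 n ^ (a+b+c)`. For every `m` some Turán construction on `3 m`
vertices has at least `3 C(m,a) C(m,b) C(m,c)` copies for all `a ≥ 1`, `b`, `c`. -/
theorem result :
    (∀ a b c : ℕ, b ≤ a → a ≤ b + 1 → c ≤ b → b ≤ c + 1 → 6 ≤ a + b + c →
      ∀ (n : ℕ) (H : Finset (Finset (Fin n))), (∀ e ∈ H, e.card = 3) → K43Free H →
        ∃ g : Fin n → Fin 3, n ^ (a + b + c - 3) * (symmDiff H (turan g)).card +
          430080000 * (3 ^ (a + b + c - 1) * (a ! * (b ! * c !)) * copies a b c H) ≤
            430080000 * n ^ (a + b + c)) ∧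
    (∀ m : ℕ, ∃ g : Fin (3 * m) → Fin 3, K43Free (turan g) ∧
      ∀ a b c : ℕ, 1 ≤ a →
        3 * (m.choose a * (m.choose b * m.choose c)) ≤ copies a b c (turan g)) := by
  refine ⟨fun a b c h1 h2 h3 h4 h6 n H hH hK => ?_, fun m => ?_⟩
  · obtain ⟨g, hg⟩ := P3.gs_all hH hK a b c h6 h3 h4 h1 h2
    refine ⟨g, ?_⟩
    rw [copies_eq (by omega) (by omega) (by omega) hK, turan_eq]
    unfold P3.GS at hg
    rw [show a + b + c - 3 + 2 = a + b + c - 1 by omega,
      show a + b + c - 3 + 3 = a + b + c by omega] at hg
    exact hg
  · refine ⟨P3.blk m, P3.tu_free _, fun a b c ha => ?_⟩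
    exact (P3.tu_low _ m (P3.blk_card m) a b c ha).trans (copies_ge a b c _)

end Pool.Agent.Results.MP_f1799f_co.NearlyBalancedPatterns
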