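import Pool.Agent.R105.TP.Dat
import Pool.Agent.Y903.TX.Low
import Pool.Agent.TH773.ST.Ful

/-!
# Turán's `(3,4)`-problem: exact Turán numbers of pairs of 3-graphs

Let `t(n)` be the number of edges of Turán's construction with three parts whose sizes differ by at
most one. Turán's conjecture says that `ex(n, K_4^3) = t(n)`. Here this is proved for large `n` if a
second 3-graph `F` is forbidden (as a not necessarily induced subgraph), for three 3-graphs `F` with
six vertices and nine edges (`nine j`), and for all their sub-3-graphs `F` which are not contained in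
Turán's construction; and Turán's construction is the only extremal 3-graph. For example `F` may be
one of the following 3-graphs, which are not contained in Turán's construction:

* 012 014 023 035 045 123 124,
* 012 013 014 015 025 034 123 124,
* 012 015 023 024 034 123 124 125,
* 012 014 023 025 035 123 124 134,
* 012 014 024 034 035 125 134 234.

The density `5/9` and stability are stated for more 3-graphs `F`: for all 3-graphs `F` (with any
number of vertices) which have a homomorphism into one of two 3-graphs `XA`, `XD` with six vertices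
and twelve edges, and also for 3-graphs with few copies of `F`.

Outline of the proof of the first part. By stability and deletion of vertices of small degree we may
assume that the 3-graph is close to Turán's construction and has large minimum degree. If the link
of a vertex `v` has a positive density of pairs of edges `ab`, `ad` with `a, b` in one part and `d`
in the next part (for two of the 3-graphs), or positive densities of edges inside a part and inside
the next part (for the third), then there is a copy of `F`, since all edges of `F` outside a vertex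
can be placed on edges of Turán's construction; otherwise a calculation with densities shows that the
link of `v` is close to the link of a vertex of Turán's construction. Two vertices of a part which
are in many edges inside this part also give a copy of `F`. Then the local analysis near Turán's
construction gives the bound, and an extremal 3-graph is given by an orientation of the pairs; a
reversed pair gives a copy of `F`.
-/

set_option autoImplicit false
set_option maxRecDepth 100000
set_option maxHeartbeats 4000000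
open Finset
open scoped Classical

namespace Pool.Agent.Results.MP_f1799f_co.SixVertexCompanions
open Pool.Agent.TH773.Turan34

/-- `H` contains the 3-graph `F`: there is an injection of the vertices of `F` which maps the edges
of `F` to edges of `H` (other triples may be mapped to edges as well). -/
def Contains {k n : ℕ} (F : Finset (Finset (Fin k))) (H : Finset (Finset (Fin n))) : Prop :=
  ∃ f : Fin k → Fin n, Function.Injective f ∧ ∀ e ∈ F, e.image f ∈ H

/-- The number of injections of the vertices of `F` which map the edges of `F` to edges of `H`. -/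
noncomputable def labelled {k n : ℕ} (F : Finset (Finset (Fin k))) (H : Finset (Finset (Fin n))) :
    ℕ :=
  ((univ : Finset (Fin k → Fin n)).filter fun f =>
    Function.Injective f ∧ ∀ e ∈ F, e.image f ∈ H).card

/-- There is a map from the vertices of `F` to those of `X` which maps edges to edges. -/
def Hom {k l : ℕ} (F : Finset (Finset (Fin k))) (X : Finset (Finset (Fin l))) : Prop :=
  ∃ φ : Fin k → Fin l, ∀ e ∈ F, e.image φ ∈ X

/-- The number of edges of Turán's construction with three parts of almost equal sizes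
`n/3`, `(n+1)/3`, `(n+2)/3` (rounded down). -/
def t (n : ℕ) : ℕ :=
  n / 3 * ((n + 1) / 3) * ((n + 2) / 3) + (n / 3).choose 2 * ((n + 1) / 3) +
    ((n + 1) / 3).choose 2 * ((n + 2) / 3) + ((n + 2) / 3).choose 2 * (n / 3)

/-- Three 3-graphs with six vertices and nine edges. -/
def nine : Fin 3 → Finset (Finset (Fin 6))
  | 0 => {{0, 1, 2}, {0, 1, 5}, {0, 2, 3}, {0, 2, 4}, {0, 2, 5}, {0, 3, 4}, {1, 2, 3}, {1, 2, 4},
      {1, 3, 4}}
  | 1 => {{0, 1, 3}, {0, 1, 4}, {0, 2, 3}, {0, 2, 4}, {0, 2, 5}, {0, 3, 5}, {1, 2, 3}, {1, 2, 4},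
      {1, 3, 4}}
  | 2 => {{0, 1, 2}, {0, 1, 4}, {0, 2, 4}, {0, 3, 4}, {0, 3, 5}, {1, 2, 3}, {1, 2, 5}, {1, 3, 4},
      {2, 3, 4}}

/-- the lists of edges -/
def lst : Fin 3 → List R105.TP.Ed
  | 0 => R105.TP.N0
  | 1 => R105.TP.N1
  | 2 => R105.TP.N2

theorem nine_eq (j : Fin 3) : nine j = R105.TP.gr (lst j) := by
  fin_cases j <;> decide

theorem no_col (j : Fin 3) : ∀ g : Fin 6 → Fin 3, ∃ e ∈ lst j,
    R105.TP.tb (g e.1) (g e.2.1) (g e.2.2) = false := by
  fin_cases j <;> decide +kernel

/-- membership in Turán's construction, by the types of the parts -/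
theorem mem_turan {n : ℕ} (g : Fin n → Fin 3) {x y z : Fin n} (h1 : x ≠ y) (h2 : x ≠ z)
    (h3 : y ≠ z) : ({x, y, z} : Finset (Fin n)) ∈ turan g ↔
      R105.TP.tb (g x) (g y) (g z) = true := by
  rw [R105.TP.turan_tgraph]
  have h := Pool.Agent.Y439.Loc.rel_tgraph g x y z
  unfold Pool.Agent.Y439.Loc.Rel Pool.Agent.Y439.Loc.Tu Pool.Agent.Y439.Loc.FD at h
  constructor
  · intro hm
    exact (h.1 ⟨h1, h3, h2, hm⟩).2.2.2
  · intro hm
    exact (h.2 ⟨h1, h3, h2, hm⟩).2.2.2

theorem no_sub (j : Fin 3) (g : Fin 6 → Fin 3) : ¬ nine j ⊆ turan g := by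
  intro h
  obtain ⟨e, he, hb⟩ := no_col j g
  have hp : R105.TP.Prp (lst j) := by
    fin_cases j
    exacts [R105.TP.prpN0, R105.TP.prpN1, R105.TP.prpN2]
  obtain ⟨n1, n2, n3⟩ := hp e he
  have hm : ({e.1, e.2.1, e.2.2} : Finset (Fin 6)) ∈ nine j := by
    rw [nine_eq]
    exact R105.TP.mem_gr.2 ⟨e, he, rfl⟩
  have := (mem_turan g n1 n2 n3).1 (h hm)
  rw [hb] at this
  exact absurd this (by decide)

theorem no_copy {k n : ℕ} {F : Finset (Finset (Fin k))} (h : ∀ g : Fin k → Fin 3, ¬ F ⊆ turan g)
    (g : Fin n → Fin 3) : ¬ Contains F (turan g) := by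
  rintro ⟨f, hf, hi⟩
  refine h (fun i => g (f i)) fun e he => ?_
  have h1 := hi e he
  have h3 : e.card = 3 := by
    have h4 : (e.image f).card = 3 := by
      unfold turan at h1
      exact (mem_powersetCard.1 (mem_filter.1 h1).1).2
    rwa [card_image_of_injective _ hf] at h4
  obtain ⟨x, y, z, n1, n2, n3, rfl⟩ := card_eq_three.1 h3
  rw [R105.TP.img3, mem_turan g (fun h => n1 (hf h)) (fun h => n2 (hf h)) (fun h => n3 (hf h))]
    at h1
  exact (mem_turan (fun i => g (f i)) n1 n2 n3).2 h1

theorem exact_nine (j : Fin 3) : ∃ n0 : ℕ, ∀ n, n0 ≤ n → ∀ H : Finset (Finset (Fin n)),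
    (∀ e ∈ H, e.card = 3) → K43Free H → ¬ Contains (nine j) H →
      H.card ≤ t n ∧ (H.card = t n → ∃ g : Fin n → Fin 3, H = turan g) := by
  have key : ∃ n0 : ℕ, ∀ n, n0 ≤ n → ∀ H : Finset (Finset (Fin n)),
      (∀ e ∈ H, e.card = 3) → K43Free H → ¬ R105.TP.Contains (R105.TP.gr (lst j)) H →
      H.card ≤ Pool.Agent.Y439.Loc.tnum n ∧
        (H.card = Pool.Agent.Y439.Loc.tnum n → R105.TP.TurG n H) := by
    fin_cases j
    · refine R105.TP.exact_F R105.TP.prpN0 R105.TP.dataN0 2 fun X hX => ?_
      simp only [fam, List.mem_cons, List.not_mem_nil, or_false] at hX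
      rcases hX with rfl | rfl
      exacts [R105.TP.homN0, R105.TP.homN0.trans R105.TP.DB]
    · refine R105.TP.exact_F R105.TP.prpN1 R105.TP.dataN1 1 fun X hX => ?_
      simp only [fam, List.mem_cons, List.not_mem_nil, or_false] at hX
      rcases hX with rfl | rfl
      exacts [R105.TP.homN1, R105.TP.homN1.trans R105.TP.AC]
    · refine R105.TP.exact_F R105.TP.prpN2 R105.TP.dataN2 2 fun X hX => ?_
      simp only [fam, List.mem_cons, List.not_mem_nil, or_false] at hX
      rcases hX with rfl | rfl
      exacts [R105.TP.homN2, R105.TP.homN2.trans R105.TP.DB]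
  obtain ⟨n0, h⟩ := key
  refine ⟨n0, fun n hn H h3 hK hC => ?_⟩
  rw [nine_eq] at hC
  obtain ⟨h1, h2⟩ := h n hn H h3 hK hC
  refine ⟨h1, fun he => ?_⟩
  obtain ⟨g, hg⟩ := h2 he
  exact ⟨g, by rw [hg, R105.TP.turan_tgraph]⟩

/-- (1) Let `F` be one of the three 3-graphs `nine j`, or a sub-3-graph of one of them. If `n` is
large, then every `K_4^3`-free 3-graph on `n` vertices which does not contain `F` has at most `t n`
edges, with equality only for Turán's construction. (2) This is the Turán number if `F` is not
contained in Turán's construction: for every `n` some `turan g` has `t n` edges, all of them are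
`K_4^3`-free, and they do not contain a 3-graph which is not a sub-3-graph of some `turan g'` on its
own vertices; the `nine j`, `XA` and `XD` are such 3-graphs. (3) If `F` is a 3-graph with a homomorphism into `XA`
or into `XD`, then Turán's bound for the density and stability hold for `K_4^3`-free 3-graphs with
few copies of `F`. -/
theorem result :
    (∀ (j : Fin 3) (F : Finset (Finset (Fin 6))), F ⊆ nine j →
      ∃ n0 : ℕ, ∀ n, n0 ≤ n → ∀ H : Finset (Finset (Fin n)),
        (∀ e ∈ H, e.card = 3) → K43Free H → ¬ Contains F H →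
          H.card ≤ t n ∧ (H.card = t n → ∃ g : Fin n → Fin 3, H = turan g)) ∧
    ((∀ n : ℕ, ∃ g : Fin n → Fin 3, (turan g).card = t n) ∧
      (∀ (n : ℕ) (g : Fin n → Fin 3), K43Free (turan g)) ∧
      (∀ (k : ℕ) (F : Finset (Finset (Fin k))), (∀ g : Fin k → Fin 3, ¬ F ⊆ turan g) →
        ∀ (n : ℕ) (g : Fin n → Fin 3), ¬ Contains F (turan g)) ∧
      ∀ g : Fin 6 → Fin 3, (∀ j, ¬ nine j ⊆ turan g) ∧ ¬ XA ⊆ turan g ∧ ¬ XD ⊆ turan g) ∧
    (∀ (k : ℕ) (F : Finset (Finset (Fin k))), (∀ e ∈ F, e.card = 3) → (Hom F XA ∨ Hom F XD) →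
      ∀ ε : ℝ, 0 < ε → ∃ K n0 : ℕ, ∀ n, n0 ≤ n → ∀ H : Finset (Finset (Fin n)),
        (∀ e ∈ H, e.card = 3) → K43Free H → K * labelled F H ≤ n ^ k →
          (H.card : ℝ) ≤ (5 / 9 + ε) * (n.choose 3 : ℝ) ∧
          ∃ g : Fin n → Fin 3, ((symmDiff H (turan g)).card : ℝ) ≤
            1161216000 * (5 / 54 * (n : ℝ) ^ 3 - H.card) + ε * (n : ℝ) ^ 3) := by
  refine ⟨?_, ⟨?_, ?_, ?_, ?_⟩, ?_⟩
  · intro j F hF
    obtain ⟨n0, h⟩ := exact_nine j
    refine ⟨n0, fun n hn H h3 hK hC => h n hn H h3 hK ?_⟩
    rintro ⟨f, hf, hi⟩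
    exact hC ⟨f, hf, fun e he => hi e (hF he)⟩
  · intro n
    obtain ⟨g, hg⟩ := Pool.Agent.Y903.TX.tgraph_card n
    exact ⟨g, by rw [R105.TP.turan_tgraph, hg]; rfl⟩
  · intro n g
    exact Pool.Agent.TH773.ST.turan_free g
  · intro k F hF n g
    exact no_copy hF g
  · intro g
    have hA : (nine 1).image (fun e => e.image ![0, 1, 4, 2, 3, 5]) ⊆ XA := by decide
    have hD : (nine 0).image (fun e => e.image ![0, 4, 1, 2, 3, 5]) ⊆ XD := by decide
    refine ⟨fun j => no_sub j g, fun h => ?_, fun h => ?_⟩
    · refine no_copy (F := nine 1) (no_sub 1) g ⟨![0, 1, 4, 2, 3, 5], by decide, fun e he => ?_⟩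
      exact h (hA (mem_image.2 ⟨e, he, rfl⟩))
    · refine no_copy (F := nine 0) (no_sub 0) g ⟨![0, 4, 1, 2, 3, 5], by decide, fun e he => ?_⟩
      exact h (hD (mem_image.2 ⟨e, he, rfl⟩))
  · intro k F h3 hF ε hε
    rcases hF with hF | hF
    · refine R105.TP.stab_emb 1 h3 (fun X hX => ?_) hε
      simp only [fam, List.mem_cons, List.not_mem_nil, or_false] at hX
      rcases hX with rfl | rfl
      exacts [hF, R105.TP.HomTo.trans hF R105.TP.AC]
    · refine R105.TP.stab_emb 2 h3 (fun X hX => ?_) hε
      simp only [fam, List.mem_cons, List.not_mem_nil, or_false] at hX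
      rcases hX with rfl | rfl
      exacts [hF, R105.TP.HomTo.trans hF R105.TP.DB]

end Pool.Agent.Results.MP_f1799f_co.SixVertexCompanions
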